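import Pool.Agent.Lib.MP_e8b612_co.Final

namespace Pool.Agent.Results.MP_e8b612_co.CoprimeSmall
open Pool.Agent.Lib.MP_e8b612_co

theorem result {G : Type} [AddCommGroup G] [Fintype G] [DecidableEq G] (m k lam : ℕ)
    (A : Fin m → Finset G) (hA : IsSEDF m k lam A) (hm : 2 < m) (hk : 1 < k) (hl : 1 ≤ lam)
    (hc : Nat.Coprime k (Fintype.card G)) (h11 : m ≤ 11) :
    Fintype.card G = 243 ∧ m = 11 ∧ k = 22 ∧ lam = 20 :=
  coprime_small hA hm hk hl hc h11

end Pool.Agent.Results.MP_e8b612_co.CoprimeSmall
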