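import Pool.Agent.Lib.MP_e8b612_co.CycMain

namespace Pool.Agent.Results.MP_e8b612_co.Cyclic
open Pool.Agent.Lib.MP_e8b612_co

theorem result {G : Type} [AddCommGroup G] [Fintype G] [DecidableEq G] [IsAddCyclic G]
    (m k lam : ℕ) (A : Fin m → Finset G) (hm : 2 < m) (hk : 1 < k) (hl : 1 ≤ lam) :
    ¬ IsSEDF m k lam A :=
  fun hA => not_cyclic hA hm hk hl

end Pool.Agent.Results.MP_e8b612_co.Cyclic
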