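import Pool.Agent.Lib.MP_e8b612_co.CycMain

namespace Pool.Agent.Results.MP_e8b612_co.Exponent
open Pool.Agent.Lib.MP_e8b612_co

theorem result {G : Type} [AddCommGroup G] [Fintype G] [DecidableEq G] (m k lam : ℕ)
    (A : Fin m → Finset G) (hA : IsSEDF m k lam A) (hm : 2 < m) (hl : 1 ≤ lam) :
    AddMonoid.exponent G ∣ k * m * (m - 2) := by
  rw [mul_assoc]; exact exponent_dvd hA hm hl

end Pool.Agent.Results.MP_e8b612_co.Exponent
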